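import Mathlib

/-!
# Two vertices of maximum degree in forests: the threshold for deletions

`f(F) ≤ t` for every forest with at most `N(t) = (t^3 + 6 t^2 + 17 t + 12) / 6` vertices, and there
is a tree with `N(t) + 1` vertices and `f ≥ t + 1`.
-/

set_option autoImplicit false

namespace Pool.Agent.Results.MP_fe24f9_co.ForestThreshold

open SimpleGraph Finset

open scoped Classical in
/-- the degree of `v` in the graph `G - B` (for a vertex `v` outside `B`): the number of
neighbours of `v` that are not in `B` -/
noncomputable def degOut {V : Type} [Fintype V] (G : SimpleGraph V) (B : Finset V) (v : V) : ℕ :=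
  (univ.filter fun w => G.Adj v w ∧ w ∉ B).card

/-- `Good G B`: in `H = G - B` at least two vertices have degree `Δ(H)`, or `H` (which has
`|V| - |B|` vertices) has fewer than two vertices. -/
def Good {V : Type} [Fintype V] (G : SimpleGraph V) (B : Finset V) : Prop :=
  (∃ x y, x ∉ B ∧ y ∉ B ∧ x ≠ y ∧ (∀ z, z ∉ B → degOut G B z ≤ degOut G B x) ∧
    (∀ z, z ∉ B → degOut G B z ≤ degOut G B y)) ∨ Fintype.card V - B.card < 2

/-- `f G`: the least number of vertices whose deletion leaves a graph with at least two vertices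
of maximum degree, or with fewer than two vertices. -/
noncomputable def f {V : Type} [Fintype V] (G : SimpleGraph V) : ℕ :=
  sInf {k | ∃ B : Finset V, B.card = k ∧ Good G B}

/-! ### the numbers `D i` -/

/-- `D i = 1 + (i + 1) (i + 2) / 2` -/
def D : ℕ → ℕ
  | 0 => 2
  | i + 1 => D i + (i + 2)

theorem two_mul_D (i : ℕ) : 2 * D i = i ^ 2 + 3 * i + 4 := by
  induction i with
  | zero => simp [D]
  | succ n ih => simp only [D]; rw [mul_add, ih]; ring

theorem six_mul_sum (t : ℕ) :
    6 * ∑ i ∈ range (t + 1), D i = t ^ 3 + 6 * t ^ 2 + 17 * t + 12 := by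
  induction t with
  | zero => simp [D]
  | succ n ih =>
    rw [sum_range_succ, mul_add, ih]
    have h := two_mul_D (n + 1)
    have : 6 * D (n + 1) = 3 * (2 * D (n + 1)) := by ring
    rw [this, h]; ring

theorem D_mono {i j : ℕ} (h : i ≤ j) : D i ≤ D j := by
  induction j, h using Nat.le_induction with
  | base => exact le_rfl
  | succ n _ ih => simp only [D]; omega

/-! ### the upper bound -/

section Upper

variable {V : Type} [Fintype V] {G : SimpleGraph V}

theorem degOut_anti {B C : Finset V} (h : B ⊆ C) (v : V) : degOut G C v ≤ degOut G B v := by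
  classical
  unfold degOut
  apply card_le_card
  intro w
  simp only [mem_filter, mem_univ, true_and]
  exact fun hw => ⟨hw.1, fun hB => hw.2 (h hB)⟩

theorem degOut_le {B S : Finset V} {v : V} (h : ∀ w, G.Adj v w → w ∉ B → w ∈ S) :
    degOut G B v ≤ S.card := by
  classical
  unfold degOut
  apply card_le_card
  intro w hw
  simp only [mem_filter, mem_univ, true_and] at hw
  exact h w hw.1 hw.2

theorem le_degOut {B S : Finset V} {v : V} (h : ∀ w ∈ S, G.Adj v w ∧ w ∉ B) :
    S.card ≤ degOut G B v := by
  classical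
  unfold degOut
  apply card_le_card
  intro w hw
  simp only [mem_filter, mem_univ, true_and]
  exact h w hw

/-- the unique vertex of maximum degree -/
theorem exists_unique_max {B : Finset V} (h : ¬ Good G B) :
    ∃ v, v ∉ B ∧ 1 ≤ degOut G B v ∧ ∀ z, z ∉ B → z ≠ v → degOut G B z < degOut G B v := by
  classical
  unfold Good at h
  push Not at h
  obtain ⟨h1, h2⟩ := h
  rw [← card_compl] at h2
  have hne : (Bᶜ : Finset V).Nonempty := by
    rw [← card_pos]; omega
  obtain ⟨v, hv, hmax⟩ := exists_max_image (Bᶜ : Finset V) (degOut G B) hne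
  simp only [mem_compl] at hv hmax
  have key : ∀ z, z ∉ B → z ≠ v → degOut G B z < degOut G B v := by
    intro z hz hzv
    obtain ⟨w, hw, hlt⟩ := h1 v z hv hz (Ne.symm hzv) hmax
    exact lt_of_lt_of_le hlt (hmax w hw)
  refine ⟨v, hv, ?_, key⟩
  have : ∃ z ∈ (Bᶜ : Finset V), z ≠ v := by
    apply exists_mem_ne
    omega
  obtain ⟨z, hz, hzv⟩ := this
  have := key z (by simpa using hz) hzv
  omega

theorem not_good_of_card {t : ℕ} (ht : t + 1 ≤ f G) {B : Finset V} (hB : B.card ≤ t) :
    ¬ Good G B := by
  intro h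
  have : f G ≤ B.card := Nat.sInf_le ⟨B, rfl, h⟩
  omega

omit [Fintype V] in
/-- In a forest, at most one neighbour of `v` is equal or adjacent to `w`. -/
theorem unique_link (hG : G.IsAcyclic) {v w x y : V} (hvw : v ≠ w) (hx : G.Adj v x)
    (hy : G.Adj v y) (hxw : x = w ∨ G.Adj x w) (hyw : y = w ∨ G.Adj y w) : x = y := by
  classical
  -- a path from `v` to `w` with second vertex `x`
  have path : ∀ {x : V}, G.Adj v x → (x = w ∨ G.Adj x w) →
      ∃ p : G.Path v w, p.1.snd = x := by
    intro x hx hxw
    rcases hxw with rfl | hxw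
    · exact ⟨⟨Walk.cons hx Walk.nil, by simp [hx.ne]⟩, by simp⟩
    · exact ⟨⟨Walk.cons hx (Walk.cons hxw Walk.nil), by simp [hxw.ne, hx.ne, hvw]⟩, by simp⟩
  obtain ⟨p, hp⟩ := path hx hxw
  obtain ⟨q, hq⟩ := path hy hyw
  rw [← hp, ← hq, (hG.subsingleton_path v w).elim p q]

open scoped Classical in
theorem gap (hG : G.IsAcyclic) {t : ℕ} (ht : t + 1 ≤ f G) {B : Finset V} {v u : V}
    (hB : B.card + 1 ≤ t) (hv : v ∉ B) (hvmax : ∀ z, z ∉ B → z ≠ v → degOut G B z < degOut G B v)
    (hu : u ∉ insert v B) (hu1 : 1 ≤ degOut G (insert v B) u) :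
    degOut G (insert v B) u + (t - B.card) + 1 ≤ degOut G B v := by
  classical
  by_contra hcon
  push Not at hcon
  -- the second largest degree
  have hune : (univ.filter fun z => z ∉ insert v B).Nonempty := ⟨u, by simpa using hu⟩
  obtain ⟨w, hw, hwmax⟩ := exists_max_image _ (degOut G B) hune
  simp only [mem_filter, mem_univ, true_and] at hw hwmax
  have hwv : w ≠ v := fun h => hw (by simp [h])
  have hwB : w ∉ B := fun h => hw (by simp [h])
  have h1 : degOut G (insert v B) u ≤ degOut G B w :=
    (degOut_anti (subset_insert v B) u).trans (hwmax u hu)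
  have h2 := hvmax w hwB hwv
  set g := degOut G B v - degOut G B w with hg
  -- private neighbours of `v`
  set N := univ.filter fun y => G.Adj v y ∧ y ∉ B with hN
  set E := N.filter fun y => y = w ∨ G.Adj y w with hE
  have hEc : E.card ≤ 1 := by
    rw [card_le_one]
    intro a ha b hb
    simp only [hE, hN, mem_filter, mem_univ, true_and] at ha hb
    exact unique_link hG hwv.symm ha.1.1 hb.1.1 ha.2 hb.2
  have hNc : N.card = degOut G B v := rfl
  have hsd : g ≤ (N \ E).card := by
    have := le_card_sdiff E N
    omega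
  obtain ⟨D', hD', hDc⟩ := exists_subset_card_eq hsd
  have hD1 : ∀ y ∈ D', G.Adj v y ∧ y ∉ B ∧ y ≠ w ∧ ¬ G.Adj y w := by
    intro y hy
    have := hD' hy
    simp only [hE, hN, mem_sdiff, mem_filter, mem_univ, true_and, not_and, not_or] at this
    exact ⟨this.1.1, this.1.2, (this.2 this.1).1, (this.2 this.1).2⟩
  have hcard : (B ∪ D').card ≤ t := by
    have := card_union_le B D'
    omega
  apply not_good_of_card ht hcard
  left
  have hdw : degOut G (B ∪ D') w = degOut G B w := by
    unfold degOut
    congr 1
    ext y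
    simp only [mem_filter, mem_univ, true_and, mem_union, not_or]
    constructor
    · exact fun h => ⟨h.1, h.2.1⟩
    · exact fun h => ⟨h.1, h.2, fun hy => (hD1 y hy).2.2.2 h.1.symm⟩
  have hdv : degOut G (B ∪ D') v = degOut G B w := by
    have : (univ.filter fun y => G.Adj v y ∧ y ∉ B ∪ D') = N \ D' := by
      ext y
      simp only [hN, mem_filter, mem_univ, true_and, mem_union, not_or, mem_sdiff]
      tauto
    have hsub : D' ⊆ N := hD'.trans sdiff_subset
    unfold degOut
    rw [this, card_sdiff_of_subset hsub, hDc, hNc]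
    have : degOut G B w = #{w_1 | G.Adj w w_1 ∧ w_1 ∉ B} := rfl
    omega
  have hmax : ∀ z, z ∉ B ∪ D' → degOut G (B ∪ D') z ≤ degOut G B w := by
    intro z hz
    simp only [mem_union, not_or] at hz
    by_cases hzv : z = v
    · rw [hzv, hdv]
    · exact (degOut_anti subset_union_left z).trans
        (hwmax z (by simp [hzv, hz.1]))
  refine ⟨v, w, ?_, ?_, hwv.symm, ?_, ?_⟩
  · simp only [mem_union, not_or]
    exact ⟨hv, fun h => (hD1 v h).1.ne rfl⟩
  · simp only [mem_union, not_or]
    exact ⟨hwB, fun h => (hD1 w h).2.2.1 rfl⟩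
  · rw [hdv]; exact hmax
  · rw [hdw]; exact hmax

open scoped Classical in
/-- number of edges of `G - B` -/
noncomputable def eOut (G : SimpleGraph V) (B : Finset V) : ℕ :=
  (G.edgeFinset.filter fun e => ∀ x ∈ e, x ∉ B).card

open scoped Classical in
theorem eOut_insert {B : Finset V} {v : V} (hv : v ∉ B) :
    eOut G (insert v B) + degOut G B v ≤ eOut G B := by
  classical
  unfold eOut degOut
  rw [← card_image_of_injOn (f := fun y => s(v, y)) (s := univ.filter fun w => G.Adj v w ∧ w ∉ B),
    ← card_union_of_disjoint]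
  · apply card_le_card
    intro e he
    simp only [mem_union, mem_filter, mem_edgeFinset, mem_image, mem_univ, true_and] at he ⊢
    rcases he with he | ⟨y, hy, rfl⟩
    · exact ⟨he.1, fun x hx hxB => he.2 x hx (mem_insert_of_mem hxB)⟩
    · refine ⟨hy.1, ?_⟩
      intro x hx
      simp only [Sym2.mem_iff] at hx
      rcases hx with rfl | rfl
      · exact hv
      · exact hy.2
  · rw [Finset.disjoint_left]
    intro e he he'
    simp only [mem_filter, mem_edgeFinset, mem_image, mem_univ, true_and] at he he'
    obtain ⟨y, -, rfl⟩ := he'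
    exact he.2 v (by simp) (mem_insert_self _ _)
  · intro a _ b _ h
    rcases Sym2.eq_iff.1 h with h | h
    · exact h.2
    · exact h.2.trans h.1

theorem main_induction (hG : G.IsAcyclic) {t : ℕ} (ht : t + 1 ≤ f G) (i : ℕ) :
    ∀ B : Finset V, B.card + i = t → ∃ v, v ∉ B ∧
      (∀ z, z ∉ B → z ≠ v → degOut G B z < degOut G B v) ∧ D i ≤ degOut G B v ∧
      ∑ j ∈ range (i + 1), D j ≤ eOut G B := by
  classical
  induction i with
  | zero =>
    intro B hB
    obtain ⟨v, hv, h1, hmax⟩ := exists_unique_max (not_good_of_card ht (B := B) (by omega))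
    have h2 : 2 ≤ degOut G B v := by
      have h1' := h1
      unfold degOut at h1'
      obtain ⟨y, hy⟩ := card_pos.1 h1'
      simp only [mem_filter, mem_univ, true_and] at hy
      have := hmax y hy.2 hy.1.ne'
      have hpos : 1 ≤ degOut G B y := by
        unfold degOut
        apply card_pos.2
        exact ⟨v, by simp [hy.1.symm, hv]⟩
      omega
    refine ⟨v, hv, hmax, h2, ?_⟩
    have := eOut_insert (G := G) hv
    simp only [zero_add, sum_range_one, D]
    omega
  | succ i ih =>
    intro B hB
    obtain ⟨v, hv, h1, hmax⟩ := exists_unique_max (not_good_of_card ht (B := B) (by omega))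
    obtain ⟨u, hu, humax, hu1, hu2⟩ := ih (insert v B) (by rw [card_insert_of_notMem hv]; omega)
    have hD1 : 1 ≤ D i := by have := two_mul_D i; nlinarith
    have hgap := gap hG ht (B := B) (v := v) (u := u) (by omega) hv hmax hu (by omega)
    have hD : D (i + 1) ≤ degOut G B v := by
      simp only [D]; omega
    refine ⟨v, hv, hmax, hD, ?_⟩
    rw [sum_range_succ]
    have := eOut_insert (G := G) hv
    omega

theorem card_edges_lt (hG : G.IsAcyclic) [Nonempty V] : eOut G ∅ + 1 ≤ Fintype.card V := by
  classical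
  obtain ⟨T, hT1, -, hT⟩ := (connected_top (V := V)).exists_isTree_le_of_le_of_isAcyclic
    (le_top : G ≤ ⊤) hG
  have := hT.card_edgeFinset
  rw [← this]
  unfold eOut
  gcongr
  intro e he
  simp only [mem_filter, mem_edgeFinset] at he
  rw [mem_edgeFinset]
  exact edgeSet_mono hT1 he.1

theorem upper (hG : G.IsAcyclic) {t : ℕ}
    (hcard : 6 * Fintype.card V ≤ t ^ 3 + 6 * t ^ 2 + 17 * t + 12) : f G ≤ t := by
  by_contra hcon
  push Not at hcon
  obtain ⟨v, hv, -, -, hsum⟩ := main_induction hG hcon t ∅ (by simp)
  have : Nonempty V := ⟨v⟩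
  have h1 := card_edges_lt hG
  have h2 := six_mul_sum t
  omega

end Upper

/-! ### the extremal tree -/

/-- A graph in which every vertex has at most one neighbour of rank not above its own is
acyclic. -/
theorem isAcyclic_of_rank {V : Type} (G : SimpleGraph V) (r : V → ℕ)
    (h : ∀ v x y, G.Adj v x → G.Adj v y → r x ≤ r v → r y ≤ r v → x = y) : G.IsAcyclic := by
  classical
  intro u c hc
  have hne : c.support.toFinset.Nonempty := ⟨u, by simp⟩
  obtain ⟨v, hv, hmax⟩ := exists_max_image c.support.toFinset r hne
  simp only [List.mem_toFinset] at hv hmax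
  have hc' := hc.rotate hv
  have hsup : ∀ z ∈ (c.rotate v hv).support, r z ≤ r v := by
    intro z hz
    exact hmax z (by simpa using hz)
  have h1 : G.Adj v (c.rotate v hv).snd := Walk.adj_snd hc'.not_nil
  have h2 : G.Adj v (c.rotate v hv).penultimate := (Walk.adj_penultimate hc'.not_nil).symm
  exact hc'.snd_ne_penultimate (h v _ _ h1 h2 (hsup _ (Walk.getVert_mem_support _ _))
    (hsup _ (Walk.getVert_mem_support _ _)))

/-- vertices of the extremal tree: a root, and for every `i ≤ t` a star with `D i` vertices -/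
abbrev W (t : ℕ) : Type := Option (Σ i : Fin (t + 1), Fin (D i))

/-- adjacency of the extremal tree: the root is joined to the centres `(i, 0)`, and the centre
`(i, 0)` is joined to `(i, k)` for `k ≠ 0`. -/
def wadj (t : ℕ) : W t → W t → Prop
  | none, none => False
  | none, some x => (x.2 : ℕ) = 0
  | some x, none => (x.2 : ℕ) = 0
  | some x, some y => x.1 = y.1 ∧ (((x.2 : ℕ) = 0 ∧ (y.2 : ℕ) ≠ 0) ∨ ((x.2 : ℕ) ≠ 0 ∧ (y.2 : ℕ) = 0))

/-- the extremal tree -/
def T (t : ℕ) : SimpleGraph (W t) where
  Adj := wadj t
  symm := ⟨by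
    rintro (_ | x) (_ | y) h
    · exact h
    · exact h
    · exact h
    · exact ⟨h.1.symm, h.2.elim (fun h => Or.inr ⟨h.2, h.1⟩) (fun h => Or.inl ⟨h.2, h.1⟩)⟩⟩
  loopless := ⟨by
    rintro (_ | x) h
    · exact h
    · rcases h.2 with h | h
      · exact h.2 h.1
      · exact h.1 h.2⟩

@[simp] theorem T_none_none (t : ℕ) : ¬ (T t).Adj none none := fun h => h

@[simp] theorem T_none_some (t : ℕ) (x : Σ i : Fin (t + 1), Fin (D i)) :
    (T t).Adj none (some x) ↔ (x.2 : ℕ) = 0 := Iff.rfl

@[simp] theorem T_some_none (t : ℕ) (x : Σ i : Fin (t + 1), Fin (D i)) :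
    (T t).Adj (some x) none ↔ (x.2 : ℕ) = 0 := Iff.rfl

@[simp] theorem T_some_some (t : ℕ) (x y : Σ i : Fin (t + 1), Fin (D i)) :
    (T t).Adj (some x) (some y) ↔ x.1 = y.1 ∧
      (((x.2 : ℕ) = 0 ∧ (y.2 : ℕ) ≠ 0) ∨ ((x.2 : ℕ) ≠ 0 ∧ (y.2 : ℕ) = 0)) := Iff.rfl

/-- rank of a vertex: its distance from the root -/
def rk (t : ℕ) : W t → ℕ
  | none => 0
  | some x => if (x.2 : ℕ) = 0 then 1 else 2

theorem T_acyclic (t : ℕ) : (T t).IsAcyclic := by
  apply isAcyclic_of_rank (T t) (rk t)
  rintro (_ | ⟨i, a⟩) (_ | ⟨j, b⟩) (_ | ⟨k, c⟩) h1 h2 h3 h4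
  · rfl
  · simp at h1
  · simp at h2
  · simp only [T_none_some] at h1
    simp [rk, h1] at h3
  · rfl
  · simp only [T_some_none, T_some_some] at h1 h2
    simp only [rk, h1, if_true] at h4
    split_ifs at h4 <;> simp_all
  · simp only [T_some_none, T_some_some] at h1 h2
    simp only [rk, h2, if_true] at h3
    split_ifs at h3 <;> simp_all
  · simp only [T_some_some] at h1 h2
    obtain ⟨rfl, h1⟩ := h1
    obtain ⟨rfl, h2⟩ := h2
    simp only [rk] at h3 h4
    congr 1
    congr 1
    apply Fin.ext
    by_cases ha : (a : ℕ) = 0 <;> by_cases hb : (b : ℕ) = 0 <;> by_cases hc : (c : ℕ) = 0 <;>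
      simp_all

theorem card_W (t : ℕ) : 6 * Fintype.card (W t) = t ^ 3 + 6 * t ^ 2 + 17 * t + 12 + 6 := by
  have h := six_mul_sum t
  rw [Finset.sum_range] at h
  simp only [W, Fintype.card_option, Fintype.card_sigma, Fintype.card_fin]
  rw [mul_add, h]

theorem D_pos (i : ℕ) : 0 < D i := by
  have := two_mul_D i; nlinarith

/-- the centre of the `i`-th star -/
def ctr (t : ℕ) (i : Fin (t + 1)) : W t := some ⟨i, ⟨0, D_pos i⟩⟩

theorem ctr_injective (t : ℕ) : Function.Injective (ctr t) := by
  intro i j h
  simp only [ctr, Option.some.injEq, Sigma.mk.injEq] at h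
  exact h.1

/-- the neighbours of the centre of the `i`-th star -/
def nb (t : ℕ) (i : Fin (t + 1)) (k : Fin (D i)) : W t :=
  if (k : ℕ) = 0 then none else some ⟨i, k⟩

theorem nb_injective (t : ℕ) (i : Fin (t + 1)) : Function.Injective (nb t i) := by
  intro a b hab
  apply Fin.ext
  unfold nb at hab
  split_ifs at hab with h1 h2 h2
  · rw [h1, h2]
  · simp only [Option.some.injEq, Sigma.mk.injEq, heq_eq_eq, true_and] at hab
    rw [hab]

theorem adj_ctr_iff (t : ℕ) (i : Fin (t + 1)) (w : W t) :
    (T t).Adj (ctr t i) w ↔ ∃ k, nb t i k = w := by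
  rcases w with _ | ⟨j, b⟩
  · simp only [ctr, T_some_none, true_iff]
    exact ⟨⟨0, D_pos i⟩, by simp [nb]⟩
  · simp only [ctr, T_some_some, ne_eq, true_and, not_true_eq_false, false_and, or_false]
    constructor
    · rintro ⟨rfl, hb⟩
      exact ⟨b, by simp [nb, hb]⟩
    · rintro ⟨k, hk⟩
      unfold nb at hk
      split_ifs at hk with h
      simp only [Option.some.injEq, Sigma.mk.injEq] at hk
      obtain ⟨rfl, hk⟩ := hk
      simp only [heq_eq_eq] at hk
      subst hk
      exact ⟨rfl, h⟩

theorem lower (t : ℕ) : t + 1 ≤ f (T t) := by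
  classical
  unfold f
  apply le_csInf
  · exact ⟨_, univ, rfl, Or.inr (by rw [card_univ]; omega)⟩
  rintro _ ⟨B, rfl, hgood⟩
  by_contra hcon
  push Not at hcon
  -- the largest centre outside `B`
  have hex : (univ.filter fun i : Fin (t + 1) => ctr t i ∉ B).Nonempty := by
    by_contra hne
    rw [not_nonempty_iff_eq_empty] at hne
    have hsub : (univ.image (ctr t)) ⊆ B := by
      intro x hx
      simp only [mem_image, mem_univ, true_and] at hx
      obtain ⟨i, rfl⟩ := hx
      by_contra h
      have : i ∈ (univ.filter fun i : Fin (t + 1) => ctr t i ∉ B) := by simp [h]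
      rw [hne] at this
      simp at this
    have := card_le_card hsub
    rw [card_image_of_injective _ (ctr_injective t), card_univ, Fintype.card_fin] at this
    omega
  obtain ⟨i, hi, himax⟩ := exists_max_image _ (fun i : Fin (t + 1) => (i : ℕ)) hex
  simp only [mem_filter, mem_univ, true_and] at hi himax
  -- all larger centres are in `B`
  set Big := (univ.filter fun j : Fin (t + 1) => i < j).image (ctr t) with hBig
  have hbig : Big ⊆ B := by
    intro x hx
    simp only [hBig, mem_image, mem_filter, mem_univ, true_and] at hx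
    obtain ⟨j, hj, rfl⟩ := hx
    by_contra h
    have := himax j h
    rw [Fin.lt_def] at hj
    omega
  have hbigc : Big.card = t - i := by
    rw [hBig, card_image_of_injective _ (ctr_injective t)]
    have : (univ.filter fun j : Fin (t + 1) => i < j) = Finset.Ioi i := by
      ext j; simp
    rw [this, Fin.card_Ioi]
    omega
  set N := univ.image (nb t i) with hN
  have hNc : N.card = D i := by
    rw [hN, card_image_of_injective _ (nb_injective t i), card_univ, Fintype.card_fin]
  have hdisj : Disjoint (N ∩ B) Big := by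
    rw [Finset.disjoint_left]
    intro x hx hx'
    simp only [hN, mem_inter, mem_image, mem_univ, true_and, hBig, mem_filter] at hx hx'
    obtain ⟨⟨k, hk⟩, -⟩ := hx
    obtain ⟨j, hj, rfl⟩ := hx'
    unfold nb ctr at hk
    split_ifs at hk with h0
    simp only [Option.some.injEq, Sigma.mk.injEq] at hk
    exact hj.ne hk.1
  have hNB : (N ∩ B).card ≤ i := by
    have h1 : (N ∩ B) ∪ Big ⊆ B := union_subset inter_subset_right hbig
    have h2 := card_le_card h1
    rw [card_union_of_disjoint hdisj, hbigc] at h2
    have := i.2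
    omega
  have hdeg : D i ≤ degOut (T t) B (ctr t i) + i := by
    have h1 : (N \ B).card ≤ degOut (T t) B (ctr t i) := by
      apply le_degOut
      intro w hw
      simp only [hN, mem_sdiff, mem_image, mem_univ, true_and] at hw
      exact ⟨(adj_ctr_iff t i w).2 hw.1, hw.2⟩
    have := card_sdiff_add_card_inter N B
    omega
  -- all other degrees are smaller
  have hsmall : ∀ z, z ∉ B → z ≠ ctr t i → degOut (T t) B z < degOut (T t) B (ctr t i) := by
    have hD2 := two_mul_D i
    intro z hz hzne
    rcases z with _ | ⟨j, b⟩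
    · -- the root
      have h1 : degOut (T t) B none ≤ ((Finset.Iic i).image (ctr t)).card := by
        apply degOut_le
        intro w hw hwB
        simp only [mem_image, Finset.mem_Iic]
        rcases w with _ | ⟨j, b⟩
        · simp at hw
        · simp only [T_none_some] at hw
          have hb : b = ⟨0, D_pos j⟩ := Fin.ext hw
          subst hb
          exact ⟨j, himax j hwB, rfl⟩
      rw [card_image_of_injective _ (ctr_injective t), Fin.card_Iic] at h1
      nlinarith
    · by_cases hb : (b : ℕ) = 0
      · -- another centre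
        have hb' : b = ⟨0, D_pos j⟩ := Fin.ext hb
        subst hb'
        have hji : j ≤ i := himax j hz
        have hji' : j ≠ i := fun h => hzne (by rw [h]; rfl)
        have hlt : (j : ℕ) < i := lt_of_le_of_ne hji (fun h => hji' (Fin.ext h))
        have h1 : degOut (T t) B (ctr t j) ≤ D j := by
          have h3 : degOut (T t) B (ctr t j) ≤ (univ.image (nb t j)).card := by
            apply degOut_le
            intro w hw hwB
            simp only [mem_univ, true_and, mem_image]
            exact (adj_ctr_iff t j w).1 hw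
          rwa [card_image_of_injective _ (nb_injective t j), card_univ, Fintype.card_fin] at h3
        have h4 : D j ≤ D ((i : ℕ) - 1) := D_mono (by omega)
        have h5 : D (i : ℕ) = D ((i : ℕ) - 1) + (i + 1) := by
          obtain ⟨m, hm⟩ : ∃ m, (i : ℕ) = m + 1 := ⟨(i : ℕ) - 1, by omega⟩
          rw [hm]
          simp [D]
        change degOut (T t) B (ctr t j) < _
        omega
      · -- a leaf
        have h1 : degOut (T t) B (some ⟨j, b⟩) ≤ ({ctr t j} : Finset (W t)).card := by
          apply degOut_le
          intro w hw hwB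
          simp only [mem_singleton]
          rcases w with _ | ⟨k, c⟩
          · simp only [T_some_none] at hw
            exact absurd hw hb
          · simp only [T_some_some] at hw
            obtain ⟨rfl, h⟩ := hw
            have hc : c = ⟨0, D_pos j⟩ := by
              apply Fin.ext
              rcases h with h | h
              · exact absurd h.1 hb
              · exact h.2
            subst hc
            rfl
        rw [card_singleton] at h1
        nlinarith
  have htwo : 2 ≤ degOut (T t) B (ctr t i) := by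
    have hD2 := two_mul_D i
    nlinarith
  rcases hgood with ⟨x, y, hx, hy, hxy, hxmax, hymax⟩ | hcard
  · have h1 : x = ctr t i := by
      by_contra h
      have := hsmall x hx h
      have := hxmax _ hi
      omega
    have h2 : y = ctr t i := by
      by_contra h
      have := hsmall y hy h
      have := hymax _ hi
      omega
    exact hxy (h1.trans h2.symm)
  · have h1 : degOut (T t) B (ctr t i) ≤ (univ \ B).card := by
      apply degOut_le
      intro w _ hwB
      simp [hwB]
    rw [card_univ_sdiff] at h1
    omega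

/-- **The conjecture on two vertices of maximum degree in forests holds for every `t ≥ 1`.** -/
theorem result : ∀ t : ℕ, 1 ≤ t →
    (∀ (V : Type) [Fintype V] (F : SimpleGraph V), F.IsAcyclic →
      (Fintype.card V : ℚ) ≤ ((t : ℚ) ^ 3 + 6 * (t : ℚ) ^ 2 + 17 * t + 12) / 6 → f F ≤ t) ∧
    (∃ (V : Type) (_ : Fintype V) (F : SimpleGraph V), F.IsAcyclic ∧
      (Fintype.card V : ℚ) = ((t : ℚ) ^ 3 + 6 * (t : ℚ) ^ 2 + 17 * t + 12) / 6 + 1 ∧
      t + 1 ≤ f F) := by
  intro t _
  constructor
  · intro V _ F hF hcard
    apply upper hF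
    have h : (6 : ℚ) * Fintype.card V ≤ (t : ℚ) ^ 3 + 6 * (t : ℚ) ^ 2 + 17 * t + 12 := by linarith
    exact_mod_cast h
  · refine ⟨W t, inferInstance, T t, T_acyclic t, ?_, lower t⟩
    have h := card_W t
    have h' : (6 : ℚ) * (Fintype.card (W t) : ℚ) =
        (t : ℚ) ^ 3 + 6 * (t : ℚ) ^ 2 + 17 * t + 12 + 6 := by exact_mod_cast h
    linarith

end Pool.Agent.Results.MP_fe24f9_co.ForestThreshold
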